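import Mathlib
import Pool.Agent.W66.LU
import Pool.Agent.TH888.R.Dich
import Pool.Agent.H39x.TD.Sys

set_option autoImplicit false

/-!
# Repunits and the last digits, with error term and for arbitrary sets of lengths

Let `d 0, d 1, d 2, …` be digits in base `b ≥ 2` and let `W b d p` be the `p`-rough part (the product,
with multiplicity, of the prime factors larger than `p`) of the integer `∑ d i * b ^ i`, `i < p`, with
the digits `d (p - 1) … d 1 d 0`.  If all the digits are equal to `1` then `W b d p` is the repunit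
`1 + b + … + b ^ (p - 1)` itself, for every prime `p` which does not divide `b - 1`; for `b = 10` it is
the decimal repunit `R_p`, for every prime `p ≠ 3`.  For a set `S` let `M b S d n` be the number of
primes `p ≤ n` in `S` with `W b d p` prime, and let `V S n` be the sum of `log p / p` over the primes
`p ≤ n` in `S`.

The digits are now continued to the left: as for the repunits, the integer with `p + 1` digits
arises from the one with `p` digits by one more leading digit. We prove for almost every sequence of
digits (independent, uniform) for which `d 0` is prime to `b`: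

* `M b univ d n = (e ^ γ / log b) log n + O((log n) ^ (1/2) (log log n) ^ (5/2))`;
* for a set `S` of primes there are infinitely many `p` in `S` with `W b d p` prime if and only if
  `V S n` is unbounded (the null set depends on `S`);
* in this case `M b S d n = (e ^ γ / log b) V S n + O((V L) ^ (1/2) (log (V L)) ^ 2)` with
  `V = V S n` and `L = log log n`.

The starting results on repunits are about the first digits of real numbers, where each integer
arises from the preceding one by one more last digit.  The starting library has the limit of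
`M b univ d n / log n` (`Pool.Agent.W66L.law_all`).
-/

namespace Pool.Agent.H39x.Reserve.LastDigits

open Filter Topology MeasureTheory Asymptotics

/-- The product, with multiplicity, of the prime factors of `m` that are larger than `p`. -/
def roughPart (p m : ℕ) : ℕ := (m.primeFactorsList.filter (fun r => p < r)).prod

/-- The `p`-rough part of the integer with the `p` digits `d (p - 1) … d 1 d 0` in base `b`. -/
def W (b : ℕ) (d : ℕ → Fin b) (p : ℕ) : ℕ := roughPart p (∑ i ∈ Finset.range p, (d i : ℕ) * b ^ i)

open Classical in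
/-- The number of primes `p ≤ n` in the set `S` for which `W b d p` is prime. -/
noncomputable def M (b : ℕ) (S : Set ℕ) (d : ℕ → Fin b) (n : ℕ) : ℕ :=
  ((Finset.range (n + 1)).filter (fun p => p.Prime ∧ p ∈ S ∧ (W b d p).Prime)).card

open Classical in
/-- The sum of `log p / p` over the primes `p ≤ n` in the set `S`. -/
noncomputable def V (S : Set ℕ) (n : ℕ) : ℝ :=
  ∑ p ∈ (Finset.range (n + 1)).filter (fun p => p.Prime ∧ p ∈ S), Real.log p / p

/-- Independent digits in base `b`, uniformly distributed. -/
noncomputable def digits (b : ℕ) : Measure (ℕ → Fin b) :=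
  Measure.infinitePi (fun _ : ℕ => ProbabilityTheory.uniformOn (Set.univ : Set (Fin b)))

/-- The constant of the law, `e ^ γ / log b`. -/
noncomputable def κ (b : ℕ) : ℝ := Real.exp Real.eulerMascheroniConstant / Real.log b

lemma V_eq (S : Set ℕ) (n : ℕ) : V S n = Pool.Agent.TH888.R.VS S n := by
  classical
  unfold V Pool.Agent.TH888.R.VS
  rw [Finset.sum_filter]
  refine Finset.sum_congr rfl fun p _ => ?_
  by_cases h : p.Prime ∧ p ∈ S
  · rw [if_pos h, if_pos ⟨h.2, h.1⟩]
    rfl
  · rw [if_neg h, if_neg fun h1 => h ⟨h1.2, h1.1⟩]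

lemma W_one {b : ℕ} (hb : 2 ≤ b) {p : ℕ} (hp : p.Prime) (hpd : ¬ p ∣ b - 1) :
    W b (fun _ => ⟨1, hb⟩) p = ∑ i ∈ Finset.range p, b ^ i := by
  have h := Pool.Agent.W66L.rough_repunit hb hp hpd
  have h2 : W b (fun _ => ⟨1, hb⟩) p =
      Pool.Agent.H305R2.roughPart p (∑ i ∈ Finset.range p, 1 * b ^ i) := rfl
  rw [h2]
  simp only [one_mul]
  exact h

lemma M_eq (b : ℕ) (S : Set ℕ) (d : ℕ → Fin b) (n : ℕ) :
    M b S d n = Pool.Agent.TH888.R.cS S (fun p => Pool.Agent.W66L.dsum b p d) n := by
  classical
  unfold M Pool.Agent.TH888.R.cS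
  rfl

lemma pt {b : ℕ} (hb : 2 ≤ b) (S : Set ℕ) : ∀ᵐ d ∂(digits b), (d 0 : ℕ).Coprime b →
      Pool.Agent.TH888.R.Pt (fun p => Pool.Agent.W66L.dsum b p d) (κ b) S := by
  haveI : NeZero b := ⟨by omega⟩
  have h := Pool.Agent.H39x.TD.full_pt (μ := Pool.Agent.W66L.digitMeasure b) hb
    (Pool.Agent.W66L.full_digits b) S
  filter_upwards [h] with d hd hu
  refine hd ?_
  have e : Pool.Agent.W66L.dsum b 1 d = (d 0 : ℕ) := by
    unfold Pool.Agent.W66L.dsum
    simp
  rw [e]
  exact hu

/-- The law for the last digits, in every base; for the digits `1, 1, 1, …` the integers are the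
repunits. -/
theorem result (b : ℕ) (hb : 2 ≤ b) :
    (∀ p : ℕ, p.Prime → ¬ p ∣ b - 1 → W b (fun _ => ⟨1, hb⟩) p = ∑ i ∈ Finset.range p, b ^ i) ∧
    (∀ᵐ d ∂(digits b), (d 0 : ℕ).Coprime b →
      (fun n : ℕ => (M b Set.univ d n : ℝ) - κ b * Real.log n) =O[atTop]
      (fun n : ℕ => Real.sqrt (Real.log n) * (Real.log (Real.log n)) ^ ((5 : ℝ) / 2))) ∧
    (∀ S : Set ℕ, Tendsto (V S) atTop atTop → ∀ᵐ d ∂(digits b), (d 0 : ℕ).Coprime b →
      (fun n : ℕ => (M b S d n : ℝ) - κ b * V S n) =O[atTop]
      (fun n : ℕ => Real.sqrt (V S n * Real.log (Real.log n)) *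
        (Real.log (V S n * Real.log (Real.log n))) ^ 2)) ∧
    (∀ S : Set ℕ, ∀ᵐ d ∂(digits b), (d 0 : ℕ).Coprime b →
      ({p : ℕ | p.Prime ∧ p ∈ S ∧ (W b d p).Prime}.Infinite ↔ Tendsto (V S) atTop atTop)) := by
  have hV : ∀ S, V S = Pool.Agent.TH888.R.VS S := fun S => funext fun n => V_eq S n
  refine ⟨fun p hp hpd => W_one hb hp hpd, ?_, fun S hS => ?_, fun S => ?_⟩
  · filter_upwards [pt hb Set.univ] with d hd h0
    obtain ⟨B, hB, h⟩ := (hd h0).law Pool.Agent.TH888.R.VS_univ_tendsto
    simp only [M_eq]
    exact Pool.Agent.TH888.R.bigO_all hB h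
  · rw [hV] at hS ⊢
    filter_upwards [pt hb S] with d hd h0
    obtain ⟨B, hB, h⟩ := (hd h0).law hS
    simp only [M_eq]
    exact Pool.Agent.TH888.R.bigO_set hB hS h
  · rw [hV]
    filter_upwards [pt hb S] with d hd h0
    constructor
    · intro hi
      by_contra hn
      exact hi ((hd h0).fin hn)
    · exact (hd h0).inf

end Pool.Agent.H39x.Reserve.LastDigits
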